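import Mathlib
import Pool.Agent.X189.CR.Core

set_option autoImplicit false

/-!
An admissible rational `f` for which `n_d^{1/d}` decreases infinitely often.
-/

namespace Pool.Agent.Results.MP_0f9b8a_co.NotMonotone

open Filter Topology Finset Pool.Agent.X189.CR

/-- `f` is given on positive integers by a rational function with rational coefficients whose
denominator has no zero at pairs of positive integers. -/
def IsRational (f : ℕ → ℕ → ℝ) : Prop :=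
  ∃ p q : MvPolynomial (Fin 2) ℚ, ∀ a b : ℕ, 1 ≤ a → 1 ≤ b →
    MvPolynomial.aeval ![(a : ℝ), (b : ℝ)] q ≠ 0 ∧
      f a b = MvPolynomial.aeval ![(a : ℝ), (b : ℝ)] p / MvPolynomial.aeval ![(a : ℝ), (b : ℝ)] q

/-- Admissible functions. -/
structure Admissible (f : ℕ → ℕ → ℝ) : Prop where
  rational : IsRational f
  pos : ∀ a b : ℕ, 1 ≤ a → 1 ≤ b → 0 < f a b
  asymp : ∃ k : ℝ, 0 < k ∧ ∃ c : ℝ, 0 < c ∧
    Tendsto (fun x : ℕ × ℕ => f x.1 x.2 / ((x.1 : ℝ) * x.2 / (x.1 + x.2)) ^ k)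
      (atTop ×ˢ atTop) (𝓝 c)

theorem rational_ff : IsRational ff := by
  let x : MvPolynomial (Fin 2) ℚ := MvPolynomial.X 0
  let y : MvPolynomial (Fin 2) ℚ := MvPolynomial.X 1
  let Pp : MvPolynomial (Fin 2) ℚ := ((y + 1) * y) ^ 2
  let D1 : MvPolynomial (Fin 2) ℚ := x + y
  let D2 : MvPolynomial (Fin 2) ℚ := 1 + 32 * Pp * (x - 2) ^ 2
  let D3 : MvPolynomial (Fin 2) ℚ := 1 + 32 * 1024 * ((x - 1) ^ 2 + (y - 1) ^ 2)
  refine ⟨x * y * D2 * D3 + 32 * Pp * D1 * D3 + 32 * 1024 * D1 * D2, 32 * D1 * D2 * D3, ?_⟩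
  intro a b ha hb
  have ha' : (0 : ℝ) < a := by exact_mod_cast ha
  have hb' : (0 : ℝ) < b := by exact_mod_cast hb
  have hx : MvPolynomial.aeval ![(a : ℝ), (b : ℝ)] x = a := by
    simp [x, MvPolynomial.aeval_X]
  have hy : MvPolynomial.aeval ![(a : ℝ), (b : ℝ)] y = b := by
    simp [y, MvPolynomial.aeval_X]
  have hP : MvPolynomial.aeval ![(a : ℝ), (b : ℝ)] Pp = P b := by
    simp only [Pp, map_pow, map_mul, map_add, map_one, hy]; rfl
  have h1 : MvPolynomial.aeval ![(a : ℝ), (b : ℝ)] D1 = a + b := by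
    simp only [D1, map_add, hx, hy]
  have h2 : MvPolynomial.aeval ![(a : ℝ), (b : ℝ)] D2 = 1 + 32 * P b * ((a : ℝ) - 2) ^ 2 := by
    simp only [D2, map_add, map_mul, map_pow, map_sub, map_one, hx, hP, map_ofNat]
  have h3 : MvPolynomial.aeval ![(a : ℝ), (b : ℝ)] D3 =
      1 + 32 * 1024 * (((a : ℝ) - 1) ^ 2 + ((b : ℝ) - 1) ^ 2) := by
    simp only [D3, map_add, map_mul, map_pow, map_sub, map_one, hx, hy, map_ofNat]
  have hPb := P_pos hb
  have p1 : (0 : ℝ) < a + b := by positivity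
  have p2 : (0 : ℝ) < 1 + 32 * P b * ((a : ℝ) - 2) ^ 2 := by positivity
  have p3 : (0 : ℝ) < 1 + 32 * 1024 * (((a : ℝ) - 1) ^ 2 + ((b : ℝ) - 1) ^ 2) := by positivity
  simp only [map_add, map_mul, map_ofNat, hx, hy, hP, h1, h2, h3]
  refine ⟨by positivity, ?_⟩
  unfold ff
  rw [eq_div_iff (by positivity)]
  field_simp

theorem asymp_ff : Tendsto (fun x : ℕ × ℕ => ff x.1 x.2 / ((x.1 : ℝ) * x.2 / (x.1 + x.2)) ^ (1 : ℝ))
    (atTop ×ˢ atTop) (𝓝 (1 / 32)) := by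
  have hinv : Tendsto (fun n : ℕ => 1 / (n : ℝ)) atTop (𝓝 0) := tendsto_one_div_atTop_nhds_zero_nat
  have h1 : Tendsto (fun x : ℕ × ℕ => 1 / (x.1 : ℝ)) (atTop ×ˢ atTop) (𝓝 0) :=
    hinv.comp tendsto_fst
  have h2 : Tendsto (fun x : ℕ × ℕ => 1 / (x.2 : ℝ)) (atTop ×ˢ atTop) (𝓝 0) :=
    hinv.comp tendsto_snd
  have hup : Tendsto (fun x : ℕ × ℕ => 1 / 32 + (1 / 16) * (1 / (x.1 : ℝ) + 1 / (x.2 : ℝ)))
      (atTop ×ˢ atTop) (𝓝 (1 / 32)) := by
    have := ((h1.add h2).const_mul (1 / 16)).const_add (1 / 32)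
    simpa using this
  have hev : ∀ᶠ x : ℕ × ℕ in atTop ×ˢ atTop, 3 ≤ x.1 ∧ 3 ≤ x.2 :=
    (eventually_ge_atTop 3).prod_mk (eventually_ge_atTop 3)
  refine tendsto_of_tendsto_of_tendsto_of_le_of_le' tendsto_const_nhds hup ?_ ?_
  · filter_upwards [hev] with x hx
    have ha : (0 : ℝ) < x.1 := by exact_mod_cast (by omega : 0 < x.1)
    have hb : (0 : ℝ) < x.2 := by exact_mod_cast (by omega : 0 < x.2)
    rw [Real.rpow_one, le_div_iff₀ (by positivity)]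
    have hPb := P_pos (b := x.2) (by omega)
    unfold ff
    have t1 : 0 ≤ P x.2 / (1 + 32 * P x.2 * ((x.1 : ℝ) - 2) ^ 2) := by positivity
    have t2 : (0 : ℝ) ≤ 1024 / (1 + 32 * 1024 * (((x.1 : ℝ) - 1) ^ 2 + ((x.2 : ℝ) - 1) ^ 2)) := by
      positivity
    linarith
  · filter_upwards [hev] with x hx
    have ha : (0 : ℝ) < x.1 := by exact_mod_cast (by omega : 0 < x.1)
    have hb : (0 : ℝ) < x.2 := by exact_mod_cast (by omega : 0 < x.2)
    rw [Real.rpow_one, div_le_iff₀ (by positivity)]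
    have hle := ff_le (a := x.1) (b := x.2) (by omega) (by omega) (by omega)
    rw [if_neg (by omega), add_zero] at hle
    refine hle.trans (le_of_eq ?_)
    field_simp
    ring

theorem admissible_ff : Admissible ff where
  rational := rational_ff
  pos := fun _ _ ha hb => ff_pos ha hb
  asymp := ⟨1, one_pos, 1 / 32, by norm_num, asymp_ff⟩

theorem eventually_small : ∀ᶠ m : ℕ in atTop, 2 * (m : ℝ) * (Real.exp 2 / 16) ^ m < 1 := by
  have he : Real.exp 2 / 16 < 1 := by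
    have h1 := Real.exp_one_lt_d9
    have h2 : Real.exp 2 = Real.exp 1 * Real.exp 1 := by rw [← Real.exp_add]; norm_num
    rw [h2, div_lt_one (by norm_num)]
    have := Real.exp_pos 1
    nlinarith
  have h := tendsto_self_mul_const_pow_of_lt_one (by positivity : 0 ≤ Real.exp 2 / 16) he
  have h2 := h.const_mul 2
  rw [mul_zero] at h2
  filter_upwards [h2.eventually (gt_mem_nhds one_pos)] with m hm
  rw [mul_assoc]; exact hm

theorem key_ineq {m : ℕ} (hm : 1 ≤ m) (hs : 2 * (m : ℝ) * (Real.exp 2 / 16) ^ m < 1) :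
    ((2 * (m : ℝ)) ^ 2 / 16) ^ (2 * m) < F (2 * m) := by
  have hm0 : (0 : ℝ) < m := by exact_mod_cast hm
  have h1 := Real.pow_div_factorial_le_exp (2 * (m : ℝ)) (by positivity) (2 * m)
  have hf : (0 : ℝ) < ((2 * m).factorial : ℕ) := by positivity
  rw [div_le_iff₀ hf] at h1
  have hfac : (((2 * m).factorial : ℕ) : ℝ) = 2 * m * (((2 * m - 1).factorial : ℕ) : ℝ) := by
    obtain ⟨e, he⟩ : ∃ e, 2 * m = e + 1 := ⟨2 * m - 1, by omega⟩
    have : (2 * (m : ℝ)) = e + 1 := by exact_mod_cast he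
    rw [this, he, Nat.factorial_succ]; push_cast; simp
  have h2 : ((2 * (m : ℝ)) ^ 2 / 16) ^ m < (((2 * m - 1).factorial : ℕ) : ℝ) := by
    have e1 : ((2 * (m : ℝ)) ^ 2 / 16) ^ m = (2 * (m : ℝ)) ^ (2 * m) / 16 ^ m := by
      rw [div_pow, ← pow_mul]
    rw [e1, div_lt_iff₀ (by positivity)]
    have e2 : Real.exp (2 * (m : ℝ)) = Real.exp 2 ^ m := by
      rw [← Real.exp_nat_mul]; congr 1; ring
    rw [e2, hfac] at h1
    rw [div_pow, ← mul_div_assoc, div_lt_one (by positivity)] at hs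
    have hf' : (0 : ℝ) < ((2 * m - 1).factorial : ℕ) := by positivity
    calc (2 * (m : ℝ)) ^ (2 * m) ≤ Real.exp 2 ^ m * (2 * m * (((2 * m - 1).factorial : ℕ) : ℝ)) := h1
      _ = (2 * m * Real.exp 2 ^ m) * (((2 * m - 1).factorial : ℕ) : ℝ) := by ring
      _ < 16 ^ m * (((2 * m - 1).factorial : ℕ) : ℝ) := mul_lt_mul_of_pos_right hs hf'
      _ = _ := by ring
  unfold F
  rw [mul_comm 2 m, pow_mul, mul_comm m 2]
  exact pow_lt_pow_left₀ h2 (by positivity) two_ne_zero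

theorem result : ∃ (f : ℕ → ℕ → ℝ) (n : ℕ → ℝ), Admissible f ∧ 0 < n 1 ∧
    (∀ d, 2 ≤ d → n d = ∑ i ∈ Finset.Icc 1 (d - 1), f i (d - i) * n i * n (d - i)) ∧
    ∀ D : ℕ, ∃ d ≥ D, 1 ≤ d ∧
      n (d + 1) ^ (1 / ((d + 1 : ℕ) : ℝ)) < n d ^ (1 / (d : ℝ)) := by
  have h11 : 1024 ≤ ff 1 1 := ff_one
  set δ : ℝ := 1 / Real.sqrt (ff 1 1) with hδ
  have hsq : 32 ≤ Real.sqrt (ff 1 1) := by
    rw [Real.le_sqrt (by norm_num) (by linarith)]; norm_num; exact h11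
  have hδ0 : 0 < δ := by positivity
  have hδ1 : δ ≤ 1 / 32 := by
    rw [hδ]; exact one_div_le_one_div_of_le (by norm_num) hsq
  set n := Pool.Agent.X189.CR.seq ff δ with hn
  have hn1 : n 1 = δ := by rw [hn, Pool.Agent.X189.CR.seq]
  have hrec : ∀ d, 2 ≤ d → n d = ∑ i ∈ Finset.Icc 1 (d - 1), ff i (d - i) * n i * n (d - i) :=
    seq_rec ff δ
  have hn2 : n 2 = 1 := by
    rw [hrec 2 le_rfl]
    simp only [show 2 - 1 = 1 from rfl, Finset.Icc_self, Finset.sum_singleton, hn1]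
    rw [hδ, mul_assoc, ← mul_div_mul_comm, Real.mul_self_sqrt (by linarith), one_mul, mul_one_div,
      div_self (by linarith)]
  have hpos := n_pos hrec (by rw [hn1]; exact hδ0)
  refine ⟨ff, n, admissible_ff, by rw [hn1]; exact hδ0, hrec, fun D => ?_⟩
  obtain ⟨m, hm, hmD⟩ := (eventually_small.and (eventually_ge_atTop (D + 1))).exists
  have hm1 : 1 ≤ m := by omega
  refine ⟨2 * m, by omega, by omega, ?_⟩
  have hlow := lower_bound hrec (by rw [hn1]; exact hδ0) hn2 m hm1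
  have hup := upper_bound hrec hδ0 (by linarith) hn1 hn2 (2 * m + 1) (by omega)
  have hcc : cc δ (2 * m + 1) = δ := by
    unfold cc; rw [if_neg (by simp)]
  rw [hcc] at hup
  have hFs : F (2 * m + 1) = (2 * (m : ℝ)) ^ 2 * F (2 * m) := by
    unfold F
    obtain ⟨e, he⟩ : ∃ e, 2 * m = e + 1 := ⟨2 * m - 1, by omega⟩
    have : (2 * (m : ℝ)) = e + 1 := by exact_mod_cast he
    rw [this, he]
    simp only [Nat.add_sub_cancel]
    rw [Nat.factorial_succ]; push_cast; ring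
  have hF0 := F_pos (2 * m)
  have hb : n (2 * m + 1) ≤ (2 * (m : ℝ)) ^ 2 / 16 * F (2 * m) := by
    refine hup.trans ?_
    rw [hFs]
    have a1 : (2 - 1 / ((2 * m + 1 : ℕ) : ℝ)) ≤ 2 := by
      have : (0 : ℝ) ≤ 1 / ((2 * m + 1 : ℕ) : ℝ) := by positivity
      linarith
    calc (2 - 1 / ((2 * m + 1 : ℕ) : ℝ)) * δ * ((2 * (m : ℝ)) ^ 2 * F (2 * m)) ≤
          2 * (1 / 32) * ((2 * (m : ℝ)) ^ 2 * F (2 * m)) := by gcongr
      _ = _ := by ring
  have hmain : n (2 * m + 1) ^ (2 * m) < n (2 * m) ^ (2 * m + 1) := by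
    have hbp := hpos (2 * m + 1) (by omega)
    calc n (2 * m + 1) ^ (2 * m) ≤ ((2 * (m : ℝ)) ^ 2 / 16 * F (2 * m)) ^ (2 * m) := by gcongr
      _ = ((2 * (m : ℝ)) ^ 2 / 16) ^ (2 * m) * F (2 * m) ^ (2 * m) := mul_pow _ _ _
      _ < F (2 * m) * F (2 * m) ^ (2 * m) :=
          mul_lt_mul_of_pos_right (key_ineq hm1 hm) (by positivity)
      _ = F (2 * m) ^ (2 * m + 1) := by ring
      _ ≤ n (2 * m) ^ (2 * m + 1) := by gcongr
  have hA := hpos (2 * m) (by omega)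
  have hB := hpos (2 * m + 1) (by omega)
  have hm0 : (0 : ℝ) < ((2 * m : ℕ) : ℝ) := by exact_mod_cast (by omega : 0 < 2 * m)
  have hm0' : (0 : ℝ) < ((2 * m + 1 : ℕ) : ℝ) := by positivity
  have e1 : n (2 * m) ^ (1 / ((2 * m : ℕ) : ℝ)) =
      (n (2 * m) ^ (2 * m + 1)) ^ (1 / (((2 * m : ℕ) : ℝ) * ((2 * m + 1 : ℕ) : ℝ))) := by
    rw [← Real.rpow_natCast (n (2 * m)) (2 * m + 1), ← Real.rpow_mul hA.le]
    congr 1; field_simp
  have e2 : n (2 * m + 1) ^ (1 / ((2 * m + 1 : ℕ) : ℝ)) =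
      (n (2 * m + 1) ^ (2 * m)) ^ (1 / (((2 * m : ℕ) : ℝ) * ((2 * m + 1 : ℕ) : ℝ))) := by
    rw [← Real.rpow_natCast (n (2 * m + 1)) (2 * m), ← Real.rpow_mul hB.le]
    congr 1; field_simp
  rw [e1, e2]
  exact Real.rpow_lt_rpow (by positivity) hmain (by positivity)

end Pool.Agent.Results.MP_0f9b8a_co.NotMonotone
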